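import Pool.Agent.W626.AH.Stm

/-! Project AH: existence of a loxodromic element. -/

set_option autoImplicit false

namespace Pool.Agent.W585.AH.Exl

open Pool.Agent.W626.AH

theorem main : S_jd → S_exl := by
  intro hjd G S _ _ d hPD hH hM hI hA hU
  by_contra hno
  push Not at hno
  obtain ⟨x, hx⟩ := hU
  have : Nonempty S := ⟨x⟩
  obtain ⟨R, N, hRN⟩ := hA 13 (by norm_num)
  have hinf : Infinite G := by
    by_contra hfin
    rw [not_infinite_iff_finite] at hfin
    obtain ⟨B, hB⟩ := (Set.finite_range (fun g : G => d x (g • x))).bddAbove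
    obtain ⟨g, hg⟩ := hx B
    have := hB ⟨g, rfl⟩
    exact absurd hg (not_lt.mpr this)
  obtain ⟨F, hF⟩ := Infinite.exists_subset_card_eq G (N + 1)
  obtain ⟨x0, hx0⟩ := hjd G S d hPD hH hM hI hno F
  obtain ⟨g, hg⟩ := hx (2 * |R| + 13 + 2 * d x x0)
  classical
  obtain ⟨x1, hx1⟩ := hjd G S d hPD hH hM hI hno (insert g F)
  have h1 : 2 * |R| + 13 < d x0 (g • x0) := by
    have e1 := hPD.tri x x0 (g • x)
    have e2 := hPD.tri x0 (g • x0) (g • x)
    have e3 := hI g x0 x
    have e4 := hPD.symm x0 x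
    linarith
  have h2 : d x0 (g • x0) ≤ 2 * d x0 x1 + 13 := by
    have e1 := hPD.tri x0 x1 (g • x0)
    have e2 := hPD.tri x1 (g • x1) (g • x0)
    have e3 := hI g x1 x0
    have e4 := hPD.symm x1 x0
    have e5 := hx1 g (Finset.mem_insert_self _ _)
    linarith
  have h3 : R ≤ d x0 x1 := by
    have := le_abs_self R
    linarith
  have h4 := hRN x0 x1 h3
  have h5 : (F : Set G) ⊆ {g : G | d x0 (g • x0) ≤ 13 ∧ d x1 (g • x1) ≤ 13} := by
    intro a ha
    exact ⟨hx0 a ha, hx1 a (Finset.mem_insert_of_mem ha)⟩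
  have h6 := (Set.encard_le_encard h5).trans h4
  rw [Set.encard_coe_eq_coe_finsetCard, hF] at h6
  have h7 : N + 1 ≤ N := by exact_mod_cast h6
  omega

end Pool.Agent.W585.AH.Exl
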